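import Mathlib
import Pool.Agent.Q24.TFC.Main

/-!
# Closed subgroups with trivial rational core in profinite completions of amenable groups

The profinite groups that occur are exactly the second countable ones.
-/

set_option autoImplicit false

namespace Pool.Agent.Results.MP_ccbc6b_al.SecondCountable

open Q24.ProfCompl Q24.TFC

universe u

/-- The profinite completion of a discrete group `G`: the closure of the image of `G` in the
product of its finite quotients (`Q24.ProfCompl.Grp` for the family of all normal subgroups of
finite index). -/
def Completion (G : Type) [Group G] : Type := Hat G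

instance (G : Type) [Group G] : Group (Completion G) := inferInstanceAs (Group (Hat G))

instance (G : Type) [Group G] : TopologicalSpace (Completion G) :=
  inferInstanceAs (TopologicalSpace (Hat G))

/-- The canonical homomorphism to the profinite completion. -/
def toCompletion (G : Type) [Group G] : G →* Completion G := toHat G

/-- A discrete group is torsion-free. -/
def TorsionFree (G : Type) [Group G] : Prop := ∀ (g : G) (n : ℕ), 0 < n → g ^ n = 1 → g = 1

/-- A discrete group is amenable if it has a left invariant finitely additive probability measure
defined on all subsets. -/
def Amenable (G : Type) [Group G] : Prop :=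
  ∃ μ : Set G → ℝ, (∀ A, 0 ≤ μ A) ∧ μ Set.univ = 1 ∧
    (∀ A B : Set G, Disjoint A B → μ (A ∪ B) = μ A + μ B) ∧
    ∀ (g : G) (A : Set G), μ ((fun x => g * x) '' A) = μ A

/-- The rational core of a subgroup `D` of the profinite completion of `G`: the intersection of
the subgroups `k D k⁻¹`, `k ∈ G`. -/
def core {G : Type} [Group G] (D : Subgroup (Completion G)) : Set (Completion G) :=
  {x | ∀ k : G, (toCompletion G k)⁻¹ * x * toCompletion G k ∈ D}

/-- The profinite group `H` satisfies the condition of the problem. -/
def Occurs (H : Type u) [Group H] [TopologicalSpace H] : Prop :=
  ∃ (G : Type) (_ : Group G) (D : Subgroup (Completion G)),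
    Group.FG G ∧ TorsionFree G ∧ Amenable G ∧
    IsClosed (D : Set (Completion G)) ∧ Nonempty (D ≃ₜ* H) ∧ core D = {1}

/-- Let `H` be a profinite group. There are a finitely generated, torsion-free, amenable group `G`
and a closed subgroup `D` of its profinite completion that is topologically isomorphic to `H` and
has trivial rational core if and only if `H` is second countable. -/
theorem result (H : Type u) [Group H] [TopologicalSpace H] (hH : IsProfinite H) :
    Occurs H ↔ SecondCountableTopology H := by
  rw [← main H hH]
  constructor
  · rintro ⟨G, _, D, hfg, htf, _, hD, he, hcore⟩
    have hsc : SecondCountableTopology H := by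
      obtain ⟨e⟩ := he
      have : SecondCountableTopology (Completion G) := sc_hat G hfg
      have : SecondCountableTopology D := Topology.IsEmbedding.subtypeVal.secondCountableTopology
      exact e.toHomeomorph.symm.secondCountableTopology
    exact (main H hH).2 hsc
  · rintro ⟨G, _, D, hfg, hgood, hD, he, hcore⟩
    refine ⟨G, inferInstance, D, hfg, hgood.1, HJI.Fol.mean_of_fol hgood.2, hD, he, ?_⟩
    ext x
    constructor
    · intro hx
      exact hcore x hx
    · rintro rfl k
      have h1 : (toHat G k)⁻¹ * (1 : Hat G) * toHat G k = 1 := by
        rw [mul_one, inv_mul_cancel]
      have h2 : (toHat G k)⁻¹ * (1 : Hat G) * toHat G k ∈ D := by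
        rw [h1]
        exact D.one_mem
      exact h2

end Pool.Agent.Results.MP_ccbc6b_al.SecondCountable
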